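import Pool.Agent.H52.ND1

set_option autoImplicit false

namespace Pool.Agent.Results.MP_63e4a9_ag.NoBound

open MvPolynomial Filter

/-- The homogeneous coordinate ring of projective 4-space. -/
abbrev Poly (k : Type) [Field k] := MvPolynomial (Fin 5) k

variable {k : Type} [Field k]

/-- The Hilbert function: dimension of the degree `t` part of the quotient by `I`. -/
noncomputable def hilb (I : Ideal (Poly k)) (t : ℕ) : ℕ :=
  Module.finrank k ((homogeneousSubmodule (Fin 5) k t).map (Ideal.Quotient.mkₐ k I).toLinearMap)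

/-- `I` is the ideal of an integral curve of degree `d` in projective 4-space: homogeneous, prime,
with Hilbert polynomial `d t + c` and `d > 0`. -/
def IsCurve (I : Ideal (Poly k)) (d : ℕ) : Prop :=
  I.IsPrime ∧ (∀ f ∈ I, ∀ m, homogeneousComponent m f ∈ I) ∧ 0 < d ∧
    ∃ c : ℤ, ∀ᶠ t in atTop, (hilb I t : ℤ) = d * t + c

/-- No quadric contains the variety. -/
def NoQuadric (I : Ideal (Poly k)) : Prop := ∀ q ∈ I, q.IsHomogeneous 2 → q = 0

/-- The linear form with coefficient vector `a`. -/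
noncomputable def lf (a : Fin 5 → k) : Poly k := ∑ i, a i • X i

/-- The hyperplane section by `lf a = 0` lies, as a scheme, on a quadric of the hyperplane: a
quadratic form that is non-zero on the hyperplane lies in the saturation of `I + (lf a)`. -/
def SectionOnQuadric (I : Ideal (Poly k)) (a : Fin 5 → k) : Prop :=
  ∃ q : Poly k, q.IsHomogeneous 2 ∧ q ∉ Ideal.span {lf a} ∧
    ∃ N : ℕ, ∀ i, X i ^ N * q ∈ I ⊔ Ideal.span {lf a}

theorem result (k : Type) [Field k] (B : ℕ) :
    ∃ (I : Ideal (Poly k)) (d : ℕ), IsCurve I d ∧ B < d ∧ NoQuadric I ∧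
      ∀ a : Fin 5 → k, a ≠ 0 → SectionOnQuadric I a := by
  obtain ⟨m, hm, hB⟩ : ∃ m, 5 ≤ m ∧ B < 2 * m := ⟨B + 5, by omega, by omega⟩
  have mem : ∀ {t : ℕ} {f : Poly k}, f.IsHomogeneous t →
      (f ∈ RingHom.ker (H52.ND.ph m) ↔ H52.ND.ev m f = 0) := fun hf => by
    rw [RingHom.mem_ker, H52.ND.ph_hom m hf, Polynomial.monomial_eq_zero_iff]
  have hl : ∀ a : Fin 5 → k, (lf a).IsHomogeneous 1 := fun a =>
    (homogeneousSubmodule (Fin 5) k 1).sum_mem fun i _ =>
      Submodule.smul_mem _ _ (isHomogeneous_X k i)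
  refine ⟨RingHom.ker (H52.ND.ph m), 2 * m, ⟨RingHom.ker_isPrime _, fun f hf n => ?_, by omega,
    ?_⟩, hB, fun q hq h2 => H52.ND.noq hm q h2 ((mem h2).1 hq), fun a ha => ?_⟩
  · rw [mem (homogeneousComponent_isHomogeneous n f), ← H52.ND.ph_coeff, (RingHom.mem_ker).1 hf,
      Polynomial.coeff_zero]
  · obtain ⟨c, hc⟩ := H52.ND.hil (k := k) hm
    refine ⟨c, hc.mono fun t ht => ?_⟩
    rw [← ht]
    congr 1
    have : FiniteDimensional k (homogeneousSubmodule (Fin 5) k t) :=
      Module.Finite.iff_fg.2 (homogeneousSubmodule_fg (σ := Fin 5) (R := k) t)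
    have e1 := ((Ideal.Quotient.mkₐ k (RingHom.ker (H52.ND.ph (k := k) m))).toLinearMap.domRestrict
      (homogeneousSubmodule (Fin 5) k t)).finrank_range_add_finrank_ker
    have e2 := ((H52.ND.ev (k := k) m).toLinearMap.domRestrict
      (homogeneousSubmodule (Fin 5) k t)).finrank_range_add_finrank_ker
    have e3 : LinearMap.ker ((Ideal.Quotient.mkₐ k (RingHom.ker
        (H52.ND.ph (k := k) m))).toLinearMap.domRestrict (homogeneousSubmodule (Fin 5) k t)) =
        LinearMap.ker ((H52.ND.ev (k := k) m).toLinearMap.domRestrict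
          (homogeneousSubmodule (Fin 5) k t)) := by
      ext f
      exact Ideal.Quotient.eq_zero_iff_mem.trans (mem f.2)
    rw [LinearMap.range_domRestrict] at e1 e2
    rw [e3] at e1
    exact Nat.add_right_cancel (e1.trans e2.symm)
  · have hq : (∑ i, a i • H52.ND.Q k i).IsHomogeneous 2 :=
      (homogeneousSubmodule (Fin 5) k 2).sum_mem fun i _ =>
        Submodule.smul_mem _ _ (H52.ND.Q_hom i)
    have eq : H52.ND.ev m (∑ i, a i • H52.ND.Q k i) = Polynomial.X ^ m * H52.ND.ev m (lf a) := by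
      simp only [lf, map_sum, map_smul, H52.ND.ev_Q, Finset.mul_sum, mul_smul_comm]
      simp [H52.ND.ev]
    refine ⟨∑ i, a i • H52.ND.Q k i, hq, fun h => ?_, 1, fun i => ?_⟩
    · obtain ⟨r, hr⟩ := Ideal.mem_span_singleton'.1 h
      have c0 : H52.ND.ev m (lf a) ≠ 0 := fun e =>
        ha (H52.ND.lin hm a 0 (by rw [map_zero, zero_mul]; exact e)).1
      have e := congrArg (fun f => (H52.ND.ph m f).coeff (1 + 1)) hr
      simp only [map_mul, H52.ND.ph_hom m hq, H52.ND.ph_hom m (hl a),
        Polynomial.coeff_mul_monomial, H52.ND.ph_coeff, eq] at e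
      rw [Polynomial.coeff_monomial, if_pos rfl] at e
      have e' := mul_right_cancel₀ c0 e
      have h1 := homogeneousComponent_mem 1 r
      rw [homogeneousSubmodule_one_eq_span_X] at h1
      obtain ⟨b, hb⟩ := (Submodule.mem_span_range_iff_exists_fun k).1 h1
      exact one_ne_zero (H52.ND.lin hm b 1 (by rw [hb, e', map_one, one_mul])).2
    · have : X i ^ 1 * ∑ i, a i • H52.ND.Q k i =
          (X i * ∑ i, a i • H52.ND.Q k i - H52.ND.Q k i * lf a) + H52.ND.Q k i * lf a := by ring
      rw [this]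
      refine Ideal.add_mem _ (Ideal.mem_sup_left ?_)
        (Ideal.mem_sup_right (Ideal.mul_mem_left _ _ (Ideal.mem_span_singleton_self _)))
      rw [mem (t := 3) (((isHomogeneous_X k i).mul hq).sub ((H52.ND.Q_hom i).mul (hl a))),
        map_sub, map_mul, map_mul, eq, H52.ND.ev_Q]
      simp only [H52.ND.ev, aeval_X]
      ring

end Pool.Agent.Results.MP_63e4a9_ag.NoBound
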